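import Pool.Agent.H61.AR.Targets

/-!
# Points on the circle (row INB)
-/

set_option autoImplicit false

open Set Function MeasureTheory Filter Topology
open scoped Manifold ContDiff Matrix

namespace Pool.Agent.H5.AR

open Pool.Agent.H60.CM Pool.Agent.H61.AR

theorem pf_INB (h1 : T_IEP) (h2 : T_DSM) (h3 : T_NRM) (h4 : T_BLM) : T_INB := by
  intro D γ s hB hG c F hc hF hFi
  obtain ⟨hnr, hnz, -, -⟩ := h3 D γ hB
  have hlim := h4 D.r c (nr D γ) (nz D γ) D.cmc.r_pos hc hnr hnz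
  have hlim2 : Tendsto (fun ε : ℝ => D.H ^ 2 / 2 * ar D +
      s * ∫ θ in (0 : ℝ)..(2 * Real.pi), bt D γ c ε θ) (𝓝[>] 0)
      (𝓝 (D.H ^ 2 / 2 * ar D + s * ((∫ θ in (0 : ℝ)..(2 * Real.pi), nz D γ θ) / 2))) :=
    tendsto_const_nhds.add (hlim.const_mul s)
  have hmain : ∀ η : ℝ, 0 < η → 2 * (Real.pi * F.card + Real.pi / 2 - η) ≤
      D.H ^ 2 / 2 * ar D + s * ((∫ θ in (0 : ℝ)..(2 * Real.pi), nz D γ θ) / 2) := by
    intro η hη
    have hev := (h2 D c F η hη hF hFi).2 hc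
    refine ge_of_tendsto hlim2 ?_
    filter_upwards [hev, self_mem_nhdsWithin] with ε h5 h6
    have h7 := h1 D γ s hB hG c ε h6
    have h8 : 0 ≤ ∫ p in D.int, fe D c ε p ^ 2 ∂D.μ := integral_nonneg fun p => sq_nonneg _
    linarith
  have h9 : 2 * (Real.pi * F.card + Real.pi / 2) ≤
      D.H ^ 2 / 2 * ar D + s * ((∫ θ in (0 : ℝ)..(2 * Real.pi), nz D γ θ) / 2) := by
    refine le_of_forall_pos_le_add fun η hη => ?_
    have := hmain (η / 2) (by linarith)
    linarith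
  linarith

end Pool.Agent.H5.AR
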